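import Pool.Agent.helper69.GR2B.Spec

/-!
# gb:BRQ
-/

set_option autoImplicit false

open Complex Metric Set Filter Topology MeasureTheory
open MPS (om)
open PPS (pre TT fd)
open XPS (Df er dens tau)
open Pool.Agent.helper16.Multibrot

noncomputable section

namespace GR

theorem BRQ : BRQ_stmt := by
  intro A' f₁ f₂ u τ hA hf hq hu hut hτ
  have hpos : 0 < ‖u + τ‖ := norm_pos_iff.2 hut
  have h1 : f₁ / (A' * u) + f₂ / (A' * (u + τ)) =
      (f₂ / f₁ + 1 - f₂ / f₁ * (τ / (u + τ))) * (f₁ / (A' * u)) := by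
    field_simp
    ring
  have h2 : ‖τ / (u + τ)‖ ≤ 1 / 100 := by
    rw [norm_div, div_le_iff₀ hpos]
    linarith
  have h3 : ‖f₂ / f₁‖ ≤ 21 / 20 := by
    have h4 : f₂ / f₁ = (f₂ / f₁ + 1) - 1 := by ring
    rw [h4]
    refine (norm_sub_le _ _).trans ?_
    rw [norm_one]
    linarith
  have h5 : ‖f₂ / f₁ + 1 - f₂ / f₁ * (τ / (u + τ))‖ ≤ 1 / 16 := by
    refine (norm_sub_le _ _).trans ?_
    rw [norm_mul]
    have h6 : ‖f₂ / f₁‖ * ‖τ / (u + τ)‖ ≤ 21 / 20 * (1 / 100) :=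
      mul_le_mul h3 h2 (norm_nonneg _) (by norm_num)
    linarith
  rw [h1, norm_mul]
  exact mul_le_mul_of_nonneg_right h5 (norm_nonneg _)

end GR

end
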